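import Pool.Agent.X239.ENC

/-!
# Recognising even-nearly conservative arc weights is coNP-hard, even on symmetric digraphs

The reduction is from the Hamiltonian cycle problem.  Every edge of the graph `G` is subdivided,
one vertex `s` of `G` is split into two adjacent copies, all arcs between two adjacent vertices get
weight `-1`, except the two arcs between the copies of `s`, which get weight `2n - 1`.  Every odd
cycle uses one of these two arcs, exactly once, and its weight is negative exactly when it passes
through all vertices of `G`.
-/

namespace Pool.Agent.Results.MP_d994ca_lc.CoNPHardSymmetric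

open Pool.Agent.NPC Pool.Agent.X239.ENC

/-- Every language in `coNP` is reduced in polynomial time to the recognition of even-nearly
conservative weights by a function all of whose values are (codes of) well-formed symmetric
digraphs with symmetric weights, in which all arcs have weight `-1` and join the two classes of a
bipartition of the vertices, except one pair of opposite arcs, whose weight is a natural number
less than twice the number of vertices.  Consequently, if some polynomial-time algorithm
recognises even-nearly conservative weights on such digraphs, then `P = NP`. -/
theorem result :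
    (∀ L : Set (List Bool), InCoNP L → ∃ f : List Bool → List Bool, PolyTime f ∧
      ∀ x, ∃ D : WDigraph, f x = bits D ∧ WellFormed D ∧ SymmetricWeights D ∧ NearlyUniform D ∧
        (x ∈ L ↔ EvenNearlyConservative D)) ∧
    ((∃ V : List Bool → List Bool, PolyTime V ∧ ∀ D : WDigraph,
        WellFormed D → SymmetricWeights D → NearlyUniform D →
          (V (bits D) = [true] ↔ EvenNearlyConservative D)) →
      ∀ L : Set (List Bool), InNP L → InP L) := by
  refine ⟨hard, ?_⟩
  rintro ⟨V, hV, h⟩ L hL
  have hL' : InCoNP Lᶜ := by
    unfold InCoNP
    rw [compl_compl]
    exact hL
  obtain ⟨f, hf, hfL⟩ := hard Lᶜ hL'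
  have h1 : PolyTime (fun x => V (f x)) := Pool.Agent.H642R2.TMSim.polyTime_comp hV hf
  refine ⟨fun x => [!decide (V (f x) = [true])], polyTime_test (g := fun y => !decide (y = [true]))
    h1 (NPC.Poly.not (NPC.Poly.decide_eq NPC.Poly.id
      (NPC.Poly.const _))), fun x => ?_⟩
  obtain ⟨D, hD, h2, h3, h4, h5⟩ := hfL x
  have h6 := h D h2 h3 h4
  rw [← hD] at h6
  rw [Set.mem_compl_iff] at h5
  have h7 : ([!decide (V (f x) = [true])] = [true]) ↔ ¬ (V (f x) = [true]) := by simp
  rw [h7, h6, ← h5, not_not]

end Pool.Agent.Results.MP_d994ca_lc.CoNPHardSymmetric
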